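import Pool.Agent.W744.BU.Stm

set_option autoImplicit false

open Set Filter Topology

namespace Pool.Agent.W433.BU.CO

open Pool.Agent.W744.BU

theorem reix (hC : S_COMP) (J' J : Type) (σ : J' ≃ J) :
    ∃ Φ : Op J →⋆ₐ[ℂ] Op J', ∀ (a : Op J) i j, entry (Φ a) i j = entry a (σ i) (σ j) := by
  obtain ⟨h1, -, R, -, hR, C, hCC⟩ := hC J' J σ σ.injective
  have hall : ∀ a : Op J, a ∈ R := by
    intro a
    refine (hR a).2 ?_
    intro j i hj
    exact absurd (σ.surjective j) hj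
  refine ⟨C.comp (StarAlgHom.codRestrict (StarAlgHom.id ℂ (Op J)) R hall), fun a i j => ?_⟩
  have h2 : (C.comp (StarAlgHom.codRestrict (StarAlgHom.id ℂ (Op J)) R hall)) a
      = comp (σ : J' → J) a := by
    simp only [StarAlgHom.comp_apply]
    rw [hCC]
    rfl
  rw [h2]
  exact h1 a i j

theorem main (_hE : S_ENT) (_hT : S_TENS) (hC : S_COMP) (hD : S_DOP) : S_CO := by
  intro G J _ d
  classical
  obtain ⟨hd1, D1, hD1, -⟩ := hD G (J × G) (fun p => d p.1)
  obtain ⟨hd2, D2, hD2, -⟩ := hD G (J × G) (Prod.snd : J × G → G)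
  obtain ⟨hd0, -⟩ := hD G J d
  obtain ⟨hdi, -⟩ := hD G G (id : G → G)
  let σ : (J × G) × G ≃ (J × G) × G :=
    { toFun := fun p => ((p.1.1, p.2), p.1.2)
      invFun := fun p => ((p.1.1, p.2), p.1.2)
      left_inv := fun p => rfl
      right_inv := fun p => rfl }
  obtain ⟨Φ, hΦ⟩ := reix hC ((J × G) × G) ((J × G) × G) σ
  let τ : J × (G × G) ≃ (J × G) × G :=
    { toFun := fun p => ((p.1, p.2.1), p.2.2)
      invFun := fun p => (p.1.1, (p.1.2, p.2))
      left_inv := fun p => rfl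
      right_inv := fun p => rfl }
  obtain ⟨Ψ, hΨ⟩ := reix hC (J × (G × G)) ((J × G) × G) τ
  have hF : ∀ (c : Op (J × G)) i j k i' j' k', entry ((Φ.comp D1) c) ((i, j), k) ((i', j'), k') =
      if (d i)⁻¹ * j = (d i')⁻¹ * j' then entry c (i, k) (i', k') else 0 := by
    intro c i j k i' j' k'
    simp only [StarAlgHom.comp_apply]
    rw [hΦ, hD1, hd1]
    simp only [σ, Equiv.coe_fn_mk]
  have hK : ∀ (c : Op (J × G)) i j k i' j' k', entry ((Ψ.comp D2) c) (i, (j, k)) (i', (j', k')) =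
      if j⁻¹ * k = j'⁻¹ * k' then entry c (i, j) (i', j') else 0 := by
    intro c i j k i' j' k'
    simp only [StarAlgHom.comp_apply]
    rw [hΨ, hD2, hd2]
    simp only [τ, Equiv.coe_fn_mk]
  refine ⟨Φ.comp D1, Ψ.comp D2, ?_, ?_, ?_, ?_⟩
  · intro a b c hc
    rintro ⟨i, j⟩ k ⟨i', j'⟩ k'
    rw [hF, hd0, hc]
    simp only
    split_ifs <;> simp
  · intro a b c hc
    rintro i ⟨j, k⟩ i' ⟨j', k'⟩
    rw [hK, hdi, hc]
    simp only [id]
    split_ifs <;> simp
  · intro c i j k i' j' k'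
    rw [hK]
  · intro a i j k i' j' k'
    rw [hF, hK, hd0, hd0]
    simp only
    have key : (d i)⁻¹ * j = (d i')⁻¹ * j' →
        ((d i)⁻¹ * k = (d i')⁻¹ * k' ↔ j⁻¹ * k = j'⁻¹ * k') := by
      intro h
      have h3 : j = d i * ((d i')⁻¹ * j') := by rw [← h]; group
      constructor
      · intro h4
        have h5 : k = d i * ((d i')⁻¹ * k') := by rw [← h4]; group
        rw [h3, h5]; group
      · intro h4
        have h5 : k = j * (j'⁻¹ * k') := by rw [← h4]; group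
        rw [h5, h3]; group
    by_cases h1 : (d i)⁻¹ * j = (d i')⁻¹ * j'
    · by_cases h2 : j⁻¹ * k = j'⁻¹ * k'
      · have h3 := (key h1).2 h2
        rw [if_pos h1, if_pos h2, if_pos h3, if_pos h1]
      · have h3 : ¬ ((d i)⁻¹ * k = (d i')⁻¹ * k') := fun h => h2 ((key h1).1 h)
        rw [if_pos h1, if_neg h2, if_neg h3]
    · rw [if_neg h1]
      split_ifs <;> rfl

end Pool.Agent.W433.BU.CO
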